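import Pool.Agent.Asp200.Count
import Pool.Agent.Asp200.Search

/-!
# MP_821f63_lc : the optimal lengths of all-symbol PIR and batch codes are not subadditive in `t`
-/

open Matrix Pool.Agent.Asp200

namespace Pool.Agent.Results.MP_821f63_lc.NotSubadditive

/-- The least length of a code of dimension `k` over `F` with the `t`-all-symbol PIR property. -/
noncomputable def ASP (F : Type) [Field F] (k t : ℕ) : ℕ :=
  sInf {n | ∃ G : Matrix (Fin k) (Fin n) F, G.rank = k ∧ PIR t G}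

/-- The least length of a code of dimension `k` over `F` with the `t`-all-symbol batch
property. -/
noncomputable def ASB (F : Type) [Field F] (k t : ℕ) : ℕ :=
  sInf {n | ∃ G : Matrix (Fin k) (Fin n) F, G.rank = k ∧ Batch t G}

/-- the points -/
def pt (i : ZMod 13) : Fin 3 → ZMod 3 := (![![0, 0, 1], ![0, 1, 0], ![1, 0, 1], ![0, 1, 1],
  ![1, 1, 1], ![1, 1, 2], ![1, 2, 2], ![2, 2, 0], ![2, 0, 1], ![0, 1, 2], ![1, 2, 1], ![2, 1, 0],
  ![1, 0, 0]] : Fin 13 → Fin 3 → ZMod 3) i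

/-- the lines -/
def fl (i : ZMod 13) : Fin 3 → ZMod 3 := (![![1, 0, 0], ![1, 0, 2], ![1, 1, 2], ![0, 1, 2],
  ![1, 2, 0], ![1, 0, 1], ![1, 2, 2], ![1, 2, 1], ![1, 1, 1], ![0, 1, 1], ![1, 1, 0], ![0, 0, 1],
  ![0, 1, 0]] : Fin 13 → Fin 3 → ZMod 3) i

/-- the scalar product -/
def dt (f v : Fin 3 → ZMod 3) : ZMod 3 := f 0 * v 0 + f 1 * v 1 + f 2 * v 2

lemma geoA : ∀ l p : ZMod 13, dt (fl l) (pt p) = 0 ↔ inc l p := by decide +kernel

lemma geoB : ∀ a b c : ZMod 3, (a ≠ 0 ∨ b ≠ 0 ∨ c ≠ 0) → ∃ p : ZMod 13,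
    (a = pt p 0 ∧ b = pt p 1 ∧ c = pt p 2) ∨ (a = -pt p 0 ∧ b = -pt p 1 ∧ c = -pt p 2) := by
  decide +kernel

lemma geoC : ∀ l : ZMod 13, ∃ p, ¬ inc l p := by decide

/-- the functional of a line -/
def dl (l : ZMod 13) : (Fin 3 → ZMod 3) →ₗ[ZMod 3] ZMod 3 where
  toFun := dt (fl l)
  map_add' := by intro u v; simp only [dt, Pi.add_apply]; ring
  map_smul' := by intro c v; simp only [dt, Pi.smul_apply, smul_eq_mul, RingHom.id_apply]; ring

lemma exists_class (v : Fin 3 → ZMod 3) (hv : v ≠ 0) :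
    ∃ p : ZMod 13, ∀ l, dl l v = 0 ↔ inc l p := by
  have h : v 0 ≠ 0 ∨ v 1 ≠ 0 ∨ v 2 ≠ 0 := by
    by_contra hcon
    push Not at hcon
    apply hv
    ext i
    fin_cases i
    · exact hcon.1
    · exact hcon.2.1
    · exact hcon.2.2
  obtain ⟨p, hp⟩ := geoB _ _ _ h
  refine ⟨p, fun l => ?_⟩
  rw [← geoA]
  change dt (fl l) v = 0 ↔ _
  rcases hp with ⟨h0, h1, h2⟩ | ⟨h0, h1, h2⟩
  · simp only [dt, h0, h1, h2]
  · simp only [dt, h0, h1, h2]
    rw [← neg_eq_zero]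
    ring_nf

/-- There is no code of length at most `13` with the `7`-all-symbol PIR property. -/
theorem no_pir {n : ℕ} (hn : n ≤ 13) (G : Matrix (Fin 3) (Fin n) (ZMod 3)) (hr : G.rank = 3)
    (hG : PIR 7 G) : False := by
  classical
  have hspan : Submodule.span (ZMod 3) (Set.range G.col) = ⊤ := by
    apply Submodule.eq_top_of_finrank_eq
    rw [← Matrix.rank_eq_finrank_span_cols, hr]
    simp
  have hp : ∀ j, ∃ p : ZMod 13, G.col j ≠ 0 → ∀ l, dl l (G.col j) = 0 ↔ inc l p := by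
    intro j
    by_cases h : G.col j = 0
    · exact ⟨0, fun h' => absurd h h'⟩
    · obtain ⟨p, hp⟩ := exists_class _ h
      exact ⟨p, fun _ => hp⟩
  choose p hp using hp
  let J : Finset (Fin n) := Finset.univ.filter fun j => G.col j ≠ 0
  have hJcard : J.card ≤ 13 := (Finset.card_le_univ J).trans (by simpa using hn)
  -- the recovery sets
  have hrec : ∀ i ∈ J, ∃ R : Fin 7 → Finset (Fin n), (∀ s t, s ≠ t → Disjoint (R s) (R t)) ∧
      (∀ s, R s ⊆ J) ∧ ∀ s l, (∀ j ∈ R s, inc l (p j)) → inc l (p i) := by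
    intro i hi
    have hi' : G.col i ≠ 0 := (Finset.mem_filter.1 hi).2
    obtain ⟨R, h1, h2⟩ := hG i
    refine ⟨fun s => R s ∩ J, fun s t hst => (h1 s t hst).mono Finset.inter_subset_left
      Finset.inter_subset_left, fun s => Finset.inter_subset_right, fun s l h => ?_⟩
    rw [← hp i hi' l]
    have h3 : Submodule.span (ZMod 3) (G.col '' (R s : Set (Fin n))) ≤ LinearMap.ker (dl l) := by
      rw [Submodule.span_le]
      rintro _ ⟨j, hj, rfl⟩
      by_cases hj0 : G.col j = 0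
      · rw [hj0]; exact Submodule.zero_mem _
      · show G.col j ∈ LinearMap.ker (dl l)
        rw [LinearMap.mem_ker, hp j hj0 l]
        exact h j (Finset.mem_inter.2 ⟨hj, Finset.mem_filter.2 ⟨Finset.mem_univ _, hj0⟩⟩)
    exact LinearMap.mem_ker.1 (h3 (h2 s))
  refine no_weights (m := w J p) (N := J.card) hJcard (sum_w J p) ?_ ?_
  · intro l
    have hex : ∃ i ∈ J, ¬ inc l (p i) := by
      by_contra hcon
      push Not at hcon
      have h3 : Submodule.span (ZMod 3) (Set.range G.col) ≤ LinearMap.ker (dl l) := by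
        rw [Submodule.span_le]
        rintro _ ⟨j, rfl⟩
        by_cases hj0 : G.col j = 0
        · rw [hj0]; exact Submodule.zero_mem _
        · show G.col j ∈ LinearMap.ker (dl l)
          rw [LinearMap.mem_ker, hp j hj0 l]
          exact hcon j (Finset.mem_filter.2 ⟨Finset.mem_univ _, hj0⟩)
      rw [hspan] at h3
      obtain ⟨x, hx⟩ := geoC l
      apply hx
      rw [← geoA]
      exact LinearMap.mem_ker.1 (h3 (Submodule.mem_top (x := pt x)))
    obtain ⟨i, hi, hil⟩ := hex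
    obtain ⟨R, h1, h2, h3⟩ := hrec i hi
    exact count_line h1 h2 h3 hil
  · intro q hq
    obtain ⟨i, hi⟩ := Finset.card_pos.1 (Nat.lt_of_lt_of_le Nat.zero_lt_one hq)
    obtain ⟨hi1, hi2⟩ := Finset.mem_filter.1 hi
    obtain ⟨R, h1, h2, h3⟩ := hrec i hi1
    rw [hi2] at h3
    exact count_point h1 h2 h3

lemma asp_lower : 14 ≤ ASP (ZMod 3) 3 7 := by
  refine le_csInf ⟨7 * 3, G21, rank21, batch21.pir⟩ ?_
  rintro n ⟨G, h1, h2⟩
  by_contra hcon
  exact no_pir (by omega) G h1 h2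

lemma asb_lower : 14 ≤ ASB (ZMod 3) 3 7 := by
  refine le_csInf ⟨7 * 3, G21, rank21, batch21⟩ ?_
  rintro n ⟨G, h1, h2⟩
  by_contra hcon
  exact no_pir (by omega) G h1 h2.pir

/-- For `q = 3`, `k = 3`, `t₁ = 5`, `t₂ = 2` both subadditivity inequalities fail. -/
theorem result : ASP (ZMod 3) 3 5 + ASP (ZMod 3) 3 2 < ASP (ZMod 3) 3 (5 + 2) ∧
    ASB (ZMod 3) 3 5 + ASB (ZMod 3) 3 2 < ASB (ZMod 3) 3 (5 + 2) := by
  have h1 : ASP (ZMod 3) 3 5 ≤ 9 := Nat.sInf_le ⟨G9, rank9, batch9.pir⟩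
  have h2 : ASP (ZMod 3) 3 2 ≤ 4 := Nat.sInf_le ⟨G4, rank4, batch4.pir⟩
  have h3 : ASB (ZMod 3) 3 5 ≤ 9 := Nat.sInf_le ⟨G9, rank9, batch9⟩
  have h4 : ASB (ZMod 3) 3 2 ≤ 4 := Nat.sInf_le ⟨G4, rank4, batch4⟩
  have h5 := asp_lower
  have h6 := asb_lower
  constructor
  · change _ < ASP (ZMod 3) 3 7
    omega
  · change _ < ASB (ZMod 3) 3 7
    omega

end Pool.Agent.Results.MP_821f63_lc.NotSubadditive
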